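import Pool.Agent.X246.HDM.Mem

/-!
# The Hadamard decomposition problem is `∃ℝ`-complete

An input consists of the table of an `m × n` matrix with rational entries (in binary) and natural
numbers `k₁`, `k₂`; the question is whether the matrix is the entrywise product of a real matrix
of rank exactly `k₁` and a real matrix of rank exactly `k₂` (`Pool.Agent.X246.HDM.HDec`).
-/

set_option autoImplicit false

namespace Pool.Agent.Results.MP_c79a71_lc.ExistsRComplete

open Pool.Agent.NPC Pool.Agent.X246.HDM

/-- The Hadamard decomposition problem is `∃ℝ`-complete under polynomial-time many-one
reductions. -/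
theorem result : ER.ERComplete (lang HDec) := ⟨X246HDM.mem, X246HDM.hard⟩

end Pool.Agent.Results.MP_c79a71_lc.ExistsRComplete
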